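import Pool.Agent.Lib.MP_ae5681_co.Decomp
import Pool.Agent.Lib.MP_ae5681_co.Tree

/-! Decompositions of graphs whose degrees are large multiples of twice the size of the tree. -/

set_option autoImplicit false

namespace Pool.Agent.FS.DivDeg

open Pool.Agent.Lib.MP_ae5681_co

theorem card_pair {ι : Type} [Fintype ι] (P : ι × Bool → Prop) [DecidablePred P] :
    (Finset.univ.filter P).card =
      ∑ e, ((if P (e, true) then 1 else 0) + (if P (e, false) then 1 else 0)) := by
  rw [Finset.card_filter, Fintype.sum_prod_type]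
  exact Finset.sum_congr rfl fun e _ => Fintype.sum_bool _

theorem orient_even {V ι : Type} [DecidableEq V] [Fintype ι] [DecidableEq ι] (s t : ι → V)
    (r : V → ℕ) (hdeg : ∀ v, (Finset.univ.filter (fun e => s e = v)).card +
      (Finset.univ.filter (fun e => t e = v)).card = 2 * r v) :
    ∃ up dn : ι → V, (∀ e, Joins s t e (up e) (dn e)) ∧
      ∀ v, (Finset.univ.filter (fun e => up e = v)).card = r v ∧
        (Finset.univ.filter (fun e => dn e = v)).card = r v := by
  have h1 : ∀ e0 : ι, (Finset.univ.filter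
      (fun z : ι × Bool => (Sum.inl z.1 : ι ⊕ V) = Sum.inl e0)).card = 2 := by
    intro e0
    rw [card_pair, Finset.sum_eq_single e0 (fun e _ he => by simp [he]) (by simp)]
    simp
  have h2 : ∀ v : V, (Finset.univ.filter (fun z : ι × Bool =>
      (Sum.inr (if z.2 then s z.1 else t z.1) : ι ⊕ V) = Sum.inr v)).card = 2 * r v := by
    intro v
    rw [card_pair, Finset.sum_add_distrib, ← hdeg, Finset.card_filter, Finset.card_filter]
    simp
  obtain ⟨g, -, hg2, hg3⟩ := split_even (Finset.univ : Finset (ι × Bool))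
    (fun z => (Sum.inl z.1 : ι ⊕ V)) (fun z => Sum.inr (if z.2 then s z.1 else t z.1))
    (Finset.univ : Finset Bool) (by simp)
    (fun v => by
      rcases v with e | v
      · rw [h1]; simp
      · simp)
    (fun v => by
      rcases v with e | v
      · simp
      · rw [h2]; simp)
  have hx : ∀ e, g (e, false) = !g (e, true) := by
    intro e0
    have h := hg2 true (Finset.mem_univ _) (Sum.inl e0)
    rw [h1, card_pair, Finset.sum_eq_single e0 (fun e _ he => by simp [he]) (by simp)] at h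
    revert h
    cases g (e0, true) <;> cases g (e0, false) <;> simp
  refine ⟨fun e => if g (e, true) then s e else t e, fun e => if g (e, true) then t e else s e,
    fun e => ?_, fun v => ⟨?_, ?_⟩⟩
  · dsimp only
    split_ifs
    · exact Or.inl ⟨rfl, rfl⟩
    · exact Or.inr ⟨rfl, rfl⟩
  · have h := hg3 true (Finset.mem_univ _) (Sum.inr v)
    rw [h2, card_pair, Finset.card_univ, Fintype.card_bool] at h
    rw [← Nat.eq_of_mul_eq_mul_left two_pos h, Finset.card_filter]
    refine Finset.sum_congr rfl fun e _ => ?_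
    have h4 := hx e
    by_cases h5 : g (e, true) = true
    · simp [h4, h5]
    · simp [h4, h5]
  · have h := hg3 false (Finset.mem_univ _) (Sum.inr v)
    rw [h2, card_pair, Finset.card_univ, Fintype.card_bool] at h
    rw [← Nat.eq_of_mul_eq_mul_left two_pos h, Finset.card_filter]
    refine Finset.sum_congr rfl fun e _ => ?_
    have h4 := hx e
    by_cases h5 : g (e, true) = true
    · simp [h4, h5]
    · simp [h4, h5]

theorem colour_div {V ι : Type} [DecidableEq V] [Fintype ι] [DecidableEq ι] (s t : ι → V)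
    (m D : ℕ) (hm : 1 ≤ m) (par : ℕ → ℕ) (d0 : V → ℕ) (hd0 : ∀ v, D ≤ d0 v)
    (hdeg : ∀ v, (Finset.univ.filter (fun e => s e = v)).card +
      (Finset.univ.filter (fun e => t e = v)).card = 2 * (m * d0 v)) :
    ∃ (up dn : ι → V) (col : ι → ℕ) (d : ℕ → V → ℕ), (∀ e, Joins s t e (up e) (dn e)) ∧
      (∀ e, 1 ≤ col e ∧ col e ≤ m) ∧
      (∀ c, 1 ≤ c → c ≤ m → ∀ v,
        (Finset.univ.filter (fun e => col e = c ∧ up e = v)).card = d (par c) v ∧
        (Finset.univ.filter (fun e => col e = c ∧ dn e = v)).card = d c v) ∧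
      ∀ c, c ≤ m → ∀ v, D ≤ d c v := by
  obtain ⟨up, dn, hj, hd⟩ := orient_even s t (fun v => m * d0 v) hdeg
  have hC : (Finset.Icc 1 m).card = m := by simp
  obtain ⟨col, h1, h2, h3⟩ := split_even (Finset.univ : Finset ι) up dn (Finset.Icc 1 m)
    (by omega) (fun v => by rw [hC, (hd v).1]; exact Dvd.intro _ rfl)
    (fun v => by rw [hC, (hd v).2]; exact Dvd.intro _ rfl)
  refine ⟨up, dn, col, fun _ => d0, hj, fun e => Finset.mem_Icc.1 (h1 e (Finset.mem_univ _)),
    fun c a b v => ⟨?_, ?_⟩, fun _ _ v => hd0 v⟩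
  · have h := h2 c (Finset.mem_Icc.2 ⟨a, b⟩) v
    rw [hC, (hd v).1] at h
    exact (congrArg Finset.card (Finset.filter_congr fun e _ => and_comm)).trans
      (Nat.eq_of_mul_eq_mul_left hm h)
  · have h := h3 c (Finset.mem_Icc.2 ⟨a, b⟩) v
    rw [hC, (hd v).2] at h
    exact (congrArg Finset.card (Finset.filter_congr fun e _ => and_comm)).trans
      (Nat.eq_of_mul_eq_mul_left hm h)

theorem decomp_div {V ι : Type} [Fintype V] [DecidableEq V] [Fintype ι] [DecidableEq ι]
    (s t : ι → V) (hloop : ∀ e, s e ≠ t e)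
    (hsimple : ∀ e e' x y, Joins s t e x y → Joins s t e' x y → e = e') (m : ℕ) (hm : 1 ≤ m)
    (par : ℕ → ℕ) (hpar : ∀ c, 1 ≤ c → par c < c)
    (d0 : V → ℕ) (hd0 : ∀ v, 2048 * m ^ 6 ≤ d0 v)
    (hdeg : ∀ v, (Finset.univ.filter (fun e => s e = v)).card +
      (Finset.univ.filter (fun e => t e = v)).card = 2 * (m * d0 v)) :
    ∃ (k : ℕ) (φ : Fin k → ℕ → V) (ε : Fin k → ℕ → ι),
      (∀ x c, 1 ≤ c → c ≤ m → Joins s t (ε x c) (φ x (par c)) (φ x c)) ∧
      (∀ x s1 s2, s1 < s2 → s2 ≤ m → φ x s1 ≠ φ x s2) ∧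
      ∀ e, ∃! x, ∃ c, 1 ≤ c ∧ c ≤ m ∧ ε x c = e := by
  have hm6 : 1 ≤ m ^ 6 := Nat.one_le_pow _ _ hm
  have hD : 0 < 2048 * m ^ 6 := by omega
  obtain ⟨up, dn, col, d, hj, hcol, hd, hdD⟩ := colour_div s t m (2048 * m ^ 6) hm par d0 hd0 hdeg
  obtain ⟨cu, hcu1, hcu2⟩ := exists_clones col up m _ hD hcol (fun c => d (par c))
    (fun c h1 h2 v => ⟨(hd c h1 h2 v).1, hdD _ (by have := hpar c h1; omega) v⟩)
  obtain ⟨cd, hcd1, hcd2⟩ := exists_clones col dn m _ hD hcol d
    (fun c h1 h2 v => ⟨(hd c h1 h2 v).2, hdD _ h2 v⟩)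
  have hl : ∀ e, (cu e).1 ≠ (cd e).1 := by
    intro e h
    rw [hcu1, hcd1] at h
    rcases hj e with ⟨h1, h2⟩ | ⟨h1, h2⟩ <;> exact hloop e (by rw [h1, h2, h])
  obtain ⟨ν, ε, hst⟩ := exists_stage (H := {e // col e = 1}) (π := Prod.fst) (par := par)
    (col := col) (cu := cu) (cd := cd) (sz := fun c μ => szf (2048 * m ^ 6) (d c μ.1) μ.2)
    (j := 12 + 6 * m) (m := m) hD hpar hcu2 hcd2
    (fun c _ μ => ⟨(szf_bound hD _ _).1, (szf_bound hD _ _).2.trans (by
      have h1 : m ^ 6 ≤ (2 ^ m) ^ 6 := Nat.pow_le_pow_left Nat.lt_two_pow_self.le 6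
      rw [pow_add, mul_comm 6 m, pow_mul]
      omega)⟩)
    (fun e e' h1 h2 => hsimple e e' _ _ (hj e) (by
      rw [hcu1, hcu1] at h1
      rw [hcd1, hcd1] at h2
      rw [h1, h2]; exact hj e'))
    hl (fun x => cu x.1) Subtype.val (fun μ => by
      have h1 := hcu2 1 le_rfl hm μ
      have h2 : par 1 = 0 := by have := hpar 1 le_rfl; omega
      rw [h2] at h1
      rw [← h1]
      apply Finset.card_bij (fun x _ => x.1)
      · intro x hx
        exact Finset.mem_filter.2 ⟨Finset.mem_univ _, x.2, (Finset.mem_filter.1 hx).2⟩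
      · intro x _ y _ h
        exact Subtype.ext h
      · intro e he
        obtain ⟨-, h3, h4⟩ := Finset.mem_filter.1 he
        exact ⟨⟨e, h3⟩, Finset.mem_filter.2 ⟨Finset.mem_univ _, h4⟩, rfl⟩) m le_rfl
  obtain ⟨φ, ε', h1, h2⟩ := repair hpar hm hD (fun c _ μ => (szf_bound hD _ _).1) hl
    (num_bound m hm) hst
  set q := (Fintype.equivFin {e // col e = 1}).symm
  refine ⟨_, fun x => φ (q x), fun x => ε' (q x), fun x c h3 h4 => ?_, fun x => h2 (q x),
    fun e => ?_⟩
  · obtain ⟨-, a1, a2⟩ := (h1 c h3 h4).1 (q x)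
    simp only [hcu1, hcd1] at a1 a2
    simp only [← a1, ← a2]
    exact hj _
  · obtain ⟨x, hx⟩ := (h1 (col e) (hcol e).1 (hcol e).2).2.2 e rfl
    refine ⟨q.symm x, ⟨col e, (hcol e).1, (hcol e).2, by simpa using hx⟩, ?_⟩
    rintro y ⟨c, h3, h4, h5⟩
    have h6 : col e = c := by rw [← h5]; exact ((h1 c h3 h4).1 (q y)).1
    subst h6
    have := (h1 (col e) h3 h4).2.1 (h5.trans hx.symm)
    rw [← this, Equiv.symm_apply_apply]

end Pool.Agent.FS.DivDeg
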