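import Pool.Agent.Lib.MP_ae5681_co.Decomp
import Pool.Agent.Lib.MP_ae5681_co.Tree

/-! Decompositions of graphs with an orientation whose in-degrees and out-degrees are zero or large
multiples of the size of the tree. -/

set_option autoImplicit false

namespace Pool.Agent.FS.DivDeg.Ori

open Pool.Agent.Lib.MP_ae5681_co

/-- Sizes of the clones, all zero at a vertex that is not used. -/
def szz (D d r : ℕ) : ℕ := if d = 0 then 0 else szf D d r

theorem sum_szz {D d N : ℕ} (hD : 0 < D) (h1 : d = 0 ∨ D ≤ d) (h2 : d ≤ N) :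
    ∑ r : Fin (N + 1), szz D d r = d := by
  by_cases h : d = 0
  · simp [szz, h]
  · simp only [szz, if_neg h]
    exact sum_szf hD (h1.resolve_left h) h2

theorem szz_bound {D : ℕ} (hD : 0 < D) (d r : ℕ) :
    (szz D d r = 0 ∨ D ≤ szz D d r) ∧ szz D d r ≤ 2 * D := by
  unfold szz
  split_ifs
  · exact ⟨Or.inl rfl, Nat.zero_le _⟩
  · exact szf_bound hD d r

theorem clones0 {V ι : Type*} [DecidableEq V] [Fintype ι] (col : ι → ℕ) (f : ι → V) (m D : ℕ)
    (hD : 0 < D) (hcol : ∀ e, 1 ≤ col e ∧ col e ≤ m) (d : ℕ → V → ℕ)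
    (h1 : ∀ c, 1 ≤ c → c ≤ m → ∀ v,
      (Finset.univ.filter (fun e => col e = c ∧ f e = v)).card = d c v ∧ (d c v = 0 ∨ D ≤ d c v)) :
    ∃ cl : ι → V × Fin (Fintype.card ι + 1), (∀ e, (cl e).1 = f e) ∧
      ∀ c, 1 ≤ c → c ≤ m → ∀ μ,
        (Finset.univ.filter (fun e => col e = c ∧ cl e = μ)).card = szz D (d c μ.1) μ.2 := by
  obtain ⟨g, -, hg⟩ := exists_quota (Finset.univ : Finset ι) (fun e => (col e, f e))
    (Finset.univ : Finset (Fin (Fintype.card ι + 1)))
    (fun x r => if 1 ≤ x.1 ∧ x.1 ≤ m then szz D (d x.1 x.2) r else 0) (by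
      rintro ⟨c, v⟩
      simp only [Prod.mk.injEq]
      split_ifs with h
      · obtain ⟨h2, h3⟩ := h1 c h.1 h.2 v
        rw [sum_szz hD h3 (h2 ▸ Finset.card_le_univ _), h2]
      · rw [Finset.filter_eq_empty_iff.2 (fun e _ (h2 : col e = c ∧ f e = v) =>
          h (h2.1 ▸ hcol e))]
        simp)
  refine ⟨fun e => (f e, g e), fun _ => rfl, fun c h2 h3 μ => ?_⟩
  have := hg (c, μ.1) μ.2 (Finset.mem_univ _)
  rw [if_pos ⟨h2, h3⟩] at this
  rw [← this]
  congr 1
  apply Finset.filter_congr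
  intro e _
  simp only [Prod.ext_iff, and_assoc]

theorem colour_or {V ι : Type} [DecidableEq V] [Fintype ι] [DecidableEq ι] (s t : ι → V)
    (m D : ℕ) (hm : 1 ≤ m) (par : ℕ → ℕ) (hpar : ∀ c, 1 ≤ c → par c < c) (o i : V → ℕ)
    (ho : ∀ v, o v = 0 ∨ D ≤ o v) (hi : ∀ v, i v = 0 ∨ D ≤ i v)
    (hs : ∀ v, (Finset.univ.filter (fun e => s e = v)).card = m * o v)
    (ht : ∀ v, (Finset.univ.filter (fun e => t e = v)).card = m * i v) :
    ∃ (up dn : ι → V) (col : ι → ℕ) (d : ℕ → V → ℕ), (∀ e, Joins s t e (up e) (dn e)) ∧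
      (∀ e, 1 ≤ col e ∧ col e ≤ m) ∧
      (∀ c, 1 ≤ c → c ≤ m → ∀ v,
        (Finset.univ.filter (fun e => col e = c ∧ up e = v)).card = d (par c) v ∧
        (Finset.univ.filter (fun e => col e = c ∧ dn e = v)).card = d c v) ∧
      ∀ c, c ≤ m → ∀ v, d c v = 0 ∨ D ≤ d c v := by
  obtain ⟨sd, hsd⟩ := exists_parity par hpar
  have hC : (Finset.Icc 1 m).card = m := by simp
  obtain ⟨col, h1, h2, h3⟩ := split_even (Finset.univ : Finset ι) s t (Finset.Icc 1 m)
    (by omega) (fun v => by rw [hC, hs v]; exact Dvd.intro _ rfl)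
    (fun v => by rw [hC, ht v]; exact Dvd.intro _ rfl)
  have a2 : ∀ c, 1 ≤ c → c ≤ m → ∀ v,
      (Finset.univ.filter (fun e => col e = c ∧ s e = v)).card = o v := by
    intro c a b v
    have h := h2 c (Finset.mem_Icc.2 ⟨a, b⟩) v
    rw [hC, hs v] at h
    exact (congrArg Finset.card (Finset.filter_congr fun e _ => and_comm)).trans
      (Nat.eq_of_mul_eq_mul_left hm h)
  have a3 : ∀ c, 1 ≤ c → c ≤ m → ∀ v,
      (Finset.univ.filter (fun e => col e = c ∧ t e = v)).card = i v := by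
    intro c a b v
    have h := h3 c (Finset.mem_Icc.2 ⟨a, b⟩) v
    rw [hC, ht v] at h
    exact (congrArg Finset.card (Finset.filter_congr fun e _ => and_comm)).trans
      (Nat.eq_of_mul_eq_mul_left hm h)
  refine ⟨fun e => if sd (par (col e)) = true then s e else t e,
    fun e => if sd (par (col e)) = true then t e else s e, col,
    fun c v => if sd c = true then o v else i v, fun e => ?_,
    fun e => Finset.mem_Icc.1 (h1 e (Finset.mem_univ _)), fun c a b v => ?_, fun c _ v => ?_⟩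
  · dsimp only
    split_ifs
    · exact Or.inl ⟨rfl, rfl⟩
    · exact Or.inr ⟨rfl, rfl⟩
  · have h4 := hsd c a
    by_cases h5 : sd (par c) = true
    · have h6 : ¬ sd c = true := fun h => h4 (h5.trans h.symm)
      simp only [if_pos h5, if_neg h6]
      rw [← a2 c a b v, ← a3 c a b v]
      constructor <;> congr 1 <;> apply Finset.filter_congr <;> intro e _ <;>
        apply and_congr_right <;> intro h8 <;> rw [h8, if_pos h5]
    · have h6 : sd c = true := by
        revert h4 h5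
        cases sd (par c) <;> cases sd c <;> simp
      simp only [if_neg h5, if_pos h6]
      rw [← a2 c a b v, ← a3 c a b v]
      constructor <;> congr 1 <;> apply Finset.filter_congr <;> intro e _ <;>
        apply and_congr_right <;> intro h8 <;> rw [h8, if_neg h5]
  · dsimp only
    split_ifs
    · exact ho v
    · exact hi v

theorem decomp_or {V ι : Type} [Fintype V] [DecidableEq V] [Fintype ι] [DecidableEq ι]
    (s t : ι → V) (hloop : ∀ e, s e ≠ t e)
    (hsimple : ∀ e e' x y, Joins s t e x y → Joins s t e' x y → e = e') (m : ℕ) (hm : 1 ≤ m)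
    (par : ℕ → ℕ) (hpar : ∀ c, 1 ≤ c → par c < c)
    (o i : V → ℕ) (ho : ∀ v, o v = 0 ∨ 2048 * m ^ 6 ≤ o v) (hi : ∀ v, i v = 0 ∨ 2048 * m ^ 6 ≤ i v)
    (hs : ∀ v, (Finset.univ.filter (fun e => s e = v)).card = m * o v)
    (ht : ∀ v, (Finset.univ.filter (fun e => t e = v)).card = m * i v) :
    ∃ (k : ℕ) (φ : Fin k → ℕ → V) (ε : Fin k → ℕ → ι),
      (∀ x c, 1 ≤ c → c ≤ m → Joins s t (ε x c) (φ x (par c)) (φ x c)) ∧
      (∀ x s1 s2, s1 < s2 → s2 ≤ m → φ x s1 ≠ φ x s2) ∧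
      ∀ e, ∃! x, ∃ c, 1 ≤ c ∧ c ≤ m ∧ ε x c = e := by
  have hm6 : 1 ≤ m ^ 6 := Nat.one_le_pow _ _ hm
  have hD : 0 < 2048 * m ^ 6 := by omega
  obtain ⟨up, dn, col, d, hj, hcol, hd, hdD⟩ :=
    colour_or s t m (2048 * m ^ 6) hm par hpar o i ho hi hs ht
  obtain ⟨cu, hcu1, hcu2⟩ := clones0 col up m _ hD hcol (fun c => d (par c))
    (fun c h1 h2 v => ⟨(hd c h1 h2 v).1, hdD _ (by have := hpar c h1; omega) v⟩)
  obtain ⟨cd, hcd1, hcd2⟩ := clones0 col dn m _ hD hcol d
    (fun c h1 h2 v => ⟨(hd c h1 h2 v).2, hdD _ h2 v⟩)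
  have hl : ∀ e, (cu e).1 ≠ (cd e).1 := by
    intro e h
    rw [hcu1, hcd1] at h
    rcases hj e with ⟨h1, h2⟩ | ⟨h1, h2⟩ <;> exact hloop e (by rw [h1, h2, h])
  obtain ⟨ν, ε, hst⟩ := exists_stage (H := {e // col e = 1}) (π := Prod.fst) (par := par)
    (col := col) (cu := cu) (cd := cd) (sz := fun c μ => szz (2048 * m ^ 6) (d c μ.1) μ.2)
    (j := 12 + 6 * m) (m := m) hD hpar hcu2 hcd2
    (fun c _ μ => ⟨(szz_bound hD _ _).1, (szz_bound hD _ _).2.trans (by
      have h1 : m ^ 6 ≤ (2 ^ m) ^ 6 := Nat.pow_le_pow_left Nat.lt_two_pow_self.le 6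
      rw [pow_add, mul_comm 6 m, pow_mul]
      omega)⟩)
    (fun e e' h1 h2 => hsimple e e' _ _ (hj e) (by
      rw [hcu1, hcu1] at h1
      rw [hcd1, hcd1] at h2
      rw [h1, h2]; exact hj e'))
    hl (fun x => cu x.1) Subtype.val (fun μ => by
      have h1 := hcu2 1 le_rfl hm μ
      have h2 : par 1 = 0 := by have := hpar 1 le_rfl; omega
      rw [h2] at h1
      rw [← h1]
      apply Finset.card_bij (fun x _ => x.1)
      · intro x hx
        exact Finset.mem_filter.2 ⟨Finset.mem_univ _, x.2, (Finset.mem_filter.1 hx).2⟩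
      · intro x _ y _ h
        exact Subtype.ext h
      · intro e he
        obtain ⟨-, h3, h4⟩ := Finset.mem_filter.1 he
        exact ⟨⟨e, h3⟩, Finset.mem_filter.2 ⟨Finset.mem_univ _, h4⟩, rfl⟩) m le_rfl
  obtain ⟨φ, ε', h1, h2⟩ := repair hpar hm hD (fun c _ μ => (szz_bound hD _ _).1) hl
    (num_bound m hm) hst
  set q := (Fintype.equivFin {e // col e = 1}).symm
  refine ⟨_, fun x => φ (q x), fun x => ε' (q x), fun x c h3 h4 => ?_, fun x => h2 (q x),
    fun e => ?_⟩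
  · obtain ⟨-, a1, a2⟩ := (h1 c h3 h4).1 (q x)
    simp only [hcu1, hcd1] at a1 a2
    simp only [← a1, ← a2]
    exact hj _
  · obtain ⟨x, hx⟩ := (h1 (col e) (hcol e).1 (hcol e).2).2.2 e rfl
    refine ⟨q.symm x, ⟨col e, (hcol e).1, (hcol e).2, by simpa using hx⟩, ?_⟩
    rintro y ⟨c, h3, h4, h5⟩
    have h6 : col e = c := by rw [← h5]; exact ((h1 c h3 h4).1 (q y)).1
    subst h6
    have := (h1 (col e) h3 h4).2.1 (h5.trans hx.symm)
    rw [← this, Equiv.symm_apply_apply]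

end Pool.Agent.FS.DivDeg.Ori
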